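import Mathlib
import Pool.Agent.H.MP_902c37_an.A
import Pool.Agent.H.MP_629fd3_an.A

open Set Metric Filter Topology Matrix
open scoped ContDiff ComplexOrder

namespace Pool.Agent.H.MP_629fd3_an

open Pool.Agent.H.MP_752b71_an (N A cN cA dN dA dir)
open Pool.Agent.H.MP_902c37_an (iter)

section
variable {ι : Type} [Fintype ι]

noncomputable def n2 (Z : ι → ℂ) : ℝ := ∑ j, Complex.normSq (Z j)
noncomputable def ip (Z V : ι → ℂ) : ℂ := ∑ j, (starRingEnd ℂ) (Z j) * V j
noncomputable def Q (Z V : ι → ℂ) : ℝ := (n2 Z * n2 V - Complex.normSq (ip Z V)) / n2 Z ^ 2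

lemma n2_nonneg (Z : ι → ℂ) : 0 ≤ n2 Z := Finset.sum_nonneg fun _ _ => Complex.normSq_nonneg _

lemma ip_self (Z : ι → ℂ) : ip Z Z = n2 Z := by simp [ip, n2, Complex.normSq_eq_conj_mul_self]

lemma ip_conj (Z V : ι → ℂ) : (starRingEnd ℂ) (ip Z V) = ip V Z := by simp [ip, mul_comm]

lemma cs (Z V : ι → ℂ) : Complex.normSq (ip Z V) ≤ n2 Z * n2 V := by
  simp only [n2, ← Complex.sq_norm]
  refine le_trans ?_ (Finset.sum_mul_sq_le_sq_mul_sq Finset.univ (fun m => ‖Z m‖) fun m => ‖V m‖)
  refine pow_le_pow_left₀ (norm_nonneg _) ((norm_sum_le _ _).trans (le_of_eq ?_)) 2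
  simp

lemma Q_inv (Z V : ι → ℂ) {a : ℂ} (ha : a ≠ 0) (b : ℂ) : Q (a • Z) (a • V + b • Z) = Q Z V := by
  have l : ∀ (x y : ℂ) (U V W : ι → ℂ), ip U (x • V + y • W) = x * ip U V + y * ip U W :=
    fun x y U V W => by
      simp only [ip, Finset.mul_sum, ← Finset.sum_add_distrib, Pi.add_apply, Pi.smul_apply,
        smul_eq_mul]
      exact Finset.sum_congr rfl fun _ _ => by ring
  have l' : ∀ (x y : ℂ) (U V W : ι → ℂ), ip (x • V + y • W) U =
      (starRingEnd ℂ) x * ip V U + (starRingEnd ℂ) y * ip W U := fun x y U V W => by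
    rw [← ip_conj, l]; simp [ip_conj]
  have e : a • Z = a • Z + (0 : ℂ) • Z := by simp
  have hc : (starRingEnd ℂ) a ≠ 0 := by simpa
  apply Complex.ofReal_injective
  simp only [Q, Complex.ofReal_div, Complex.ofReal_sub, Complex.ofReal_mul, Complex.ofReal_pow,
    ← ip_self, Complex.normSq_eq_conj_mul_self, ip_conj]
  rw [e]
  simp only [l, l']
  simp only [add_zero, map_zero, zero_mul]
  rw [← mul_div_mul_left _ (ip Z Z ^ 2) (pow_ne_zero 2 (mul_ne_zero ha hc))]
  congr 1 <;> ring

lemma lapLog {g : ι → ℂ → ℂ} {z : ℂ} (ha : ∀ m, AnalyticAt ℂ (g m) z) (h0 : 0 < N g z) :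
    Laplacian.laplacian (fun w => Real.log (N g w)) z =
      4 * Q (fun m => g m z) fun m => deriv (g m) z := by
  have k : ∀ v, iteratedFDeriv ℝ 2 (fun z => Real.log (N g z)) z ![v, v] =
      ((∑ m, (2 * (deriv (g m) z * v).re ^ 2 + 2 * (deriv (g m) z * v).im ^ 2 +
        2 * (g m z).re * (deriv (deriv (g m)) z * v * v).re +
        2 * (g m z).im * (deriv (deriv (g m)) z * v * v).im)) * N g z - A g v z * A g v z) /
        N g z ^ 2 := fun v => by
    have e1 : (fun z => fderiv ℝ (fun z => Real.log (N g z)) z v) =ᶠ[𝓝 z]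
        fun z => A g v z / N g z := by
      filter_upwards [eventually_all.2 fun m => (ha m).eventually_analyticAt,
        (cN ha).continuousAt.eventually (lt_mem_nhds h0)] with z h1 h2
      refine dir (((cN h1).log h2.ne').differentiableAt (by norm_num)) ?_
      simpa using (dN h1 v).log (by simpa using h2.ne')
    rw [iter ((cN ha).log h0.ne'), e1.fderiv_eq]
    refine dir (((cA ha v).div (cN ha) h0.ne').differentiableAt (by norm_num)) ?_
    simpa using (dA ha v).fun_div (dN ha v) (by simpa using h0.ne')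
  have a1 : A g 1 z = 2 * (ip (fun m => g m z) fun m => deriv (g m) z).re := by
    simp only [A, ip, Complex.re_sum, Finset.mul_sum]
    exact Finset.sum_congr rfl fun m _ => by simp; ring
  have a2 : A g Complex.I z = -2 * (ip (fun m => g m z) fun m => deriv (g m) z).im := by
    simp only [A, ip, Complex.im_sum, Finset.mul_sum]
    exact Finset.sum_congr rfl fun m _ => by simp; ring
  have a3 : N g z = n2 fun m => g m z := by simp [N, n2, Complex.normSq_apply, sq]
  have key : ∀ a b x y n q : ℝ, a + b = 4 * q → (a * n - x) / n ^ 2 + (b * n - y) / n ^ 2 =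
      (4 * q * n - x - y) / n ^ 2 := by
    intro a b x y n q h; rw [← h]; ring
  rw [InnerProductSpace.laplacian_eq_iteratedFDeriv_complexPlane]
  simp only [k]
  rw [key (q := n2 fun m => deriv (g m) z), a1, a2, a3, Q, Complex.normSq_apply]
  · ring
  · rw [← Finset.sum_add_distrib, n2, Finset.mul_sum]
    refine Finset.sum_congr rfl fun m _ => ?_
    have : ∀ w : ℂ, w * Complex.I * Complex.I = -w := fun w => by
      rw [mul_assoc, Complex.I_mul_I]; ring
    simp only [this, Complex.normSq_apply]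
    simp
    ring

end

variable {n : ℕ}

def ds (α : Fin (n + 1)) (v : E n) : P n := Fin.insertNth (α := fun _ => ℂ) α 0 v

lemma ds_a (α) (e : E n) : ds α e α = 0 := by simp [ds]
lemma ds_1 (α) (e : E n) (j) : ds α e (α.succAbove j) = e j := by simp [ds]

lemma s_add (α) (y v : E n) (t : ℂ) : s α (y + t • v) = s α y + t • ds α v := by
  funext i
  rcases Fin.eq_self_or_eq_succAbove α i with rfl | ⟨j, rfl⟩ <;> simp [s_a, s_1, ds_a, ds_1]

lemma n2_s (α) (y : E n) : n2 (s α y) = 1 + n2 y := by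
  simp [n2, Fin.sum_univ_succAbove _ α, s_a, s_1]

noncomputable def FS (y : E n) : Matrix (Fin n) (Fin n) ℂ := Matrix.of fun j k =>
  ((if j = k then 1 else 0) / (1 + n2 y : ℝ) - y j * (starRingEnd ℂ) (y k) / (1 + n2 y : ℝ) ^ 2) / 2

lemma n2_ds (α) (v : E n) : n2 (ds α v) = n2 v := by
  simp [n2, Fin.sum_univ_succAbove _ α, ds_a, ds_1]

lemma ip_ds (α) (y v : E n) : ip (s α y) (ds α v) = ip y v := by
  simp [ip, Fin.sum_univ_succAbove _ α, ds_a, ds_1, s_1]

lemma FS_form (α) (y v : E n) : star v ⬝ᵥ FS y *ᵥ v = (Q (s α y) (ds α v) / 2 : ℝ) := by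
  have h1 := n2_ds α v
  have h2 := ip_ds α y v
  have h3 : ((1 + n2 y : ℝ) : ℂ) ≠ 0 := Complex.ofReal_ne_zero.2 (by linarith [n2_nonneg y])
  rw [Q, n2_s, h1, h2]
  simp only [Complex.ofReal_div, Complex.ofReal_sub, Complex.ofReal_mul, Complex.ofReal_pow,
    ← ip_self v, Complex.normSq_eq_conj_mul_self, ip_conj]
  generalize hN : ((1 + n2 y : ℝ) : ℂ) = M at h3 ⊢
  have : ∀ j, (FS y *ᵥ v) j = (v j / M - y j * ip y v / M ^ 2) / 2 := fun j => by
    simp only [FS, hN, mulVec, dotProduct, of_apply, ip, sub_div, sub_mul, Finset.sum_sub_distrib,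
      Finset.mul_sum, Finset.sum_div]
    congr 1
    · rw [Finset.sum_eq_single j] <;> simp +contextual [eq_comm]
      ring
    · exact Finset.sum_congr rfl fun _ _ => by ring
  simp only [dotProduct, this, Pi.star_apply, Complex.star_def]
  have e : ∀ j, (starRingEnd ℂ) (v j) * ((v j / M - y j * ip y v / M ^ 2) / 2) =
      (starRingEnd ℂ) (v j) * v j * (1 / (2 * M)) -
        (starRingEnd ℂ) (v j) * y j * (ip y v / (2 * M ^ 2)) := fun j => by ring
  simp only [e, Finset.sum_sub_distrib, ← Finset.sum_mul]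
  change ip v v * _ - ip v y * _ = _
  push_cast
  field_simp

lemma FS_pos (y : E n) : (FS y).PosDef := by
  refine PosDef.of_dotProduct_mulVec_pos ?_ fun v hv => ?_
  · ext j k
    simp [FS, conjTranspose_apply, eq_comm, mul_comm]
  · rw [FS_form 0, Complex.zero_lt_real]
    have h1 := n2_ds 0 v
    have h2 := ip_ds 0 y v
    obtain ⟨j, hj⟩ := Function.ne_iff.1 hv
    have h3 : 0 < n2 v := Finset.sum_pos' (fun _ _ => Complex.normSq_nonneg _)
      ⟨j, Finset.mem_univ _, Complex.normSq_pos.2 hj⟩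
    rw [Q, n2_s, h1, h2]
    have := cs y v
    have := n2_nonneg y
    exact half_pos (div_pos (by linarith) (by positivity))

lemma n2_smooth : ContDiff ℝ ∞ (n2 : E n → ℝ) := by
  unfold n2
  simp only [Complex.normSq_apply]
  refine ContDiff.sum fun j _ => ?_
  have h : ContDiff ℝ ∞ fun e : E n => e j := by fun_prop
  exact ((Complex.reCLM.contDiff.comp h).mul (Complex.reCLM.contDiff.comp h)).add
    ((Complex.imCLM.contDiff.comp h).mul (Complex.imCLM.contDiff.comp h))

lemma FS_smooth (j k) : ContDiff ℝ ∞ fun y : E n => FS y j k := by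
  have h : ContDiff ℝ ∞ fun y : E n => ((1 + n2 y : ℝ) : ℂ) :=
    Complex.ofRealCLM.contDiff.comp (contDiff_const.add n2_smooth)
  have h3 : ∀ y : E n, ((1 + n2 y : ℝ) : ℂ) ≠ 0 := fun y =>
    Complex.ofReal_ne_zero.2 (by linarith [n2_nonneg y])
  have h4 : ContDiff ℝ ∞ fun e : E n => (starRingEnd ℂ) (e k) :=
    Complex.conjCLE.contDiff.comp (by fun_prop : ContDiff ℝ ∞ fun e : E n => e k)
  simp only [FS, of_apply, div_eq_mul_inv]
  exact ((contDiff_const.mul (h.inv h3)).sub (((by fun_prop : ContDiff ℝ ∞ fun e : E n => e j).mul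
    h4).mul ((h.pow 2).inv fun y => pow_ne_zero 2 (h3 y)))).mul contDiff_const

lemma FS_trans (α β) {y : E n} (h : ci α y ∈ U β) (v : E n) :
    star v ⬝ᵥ FS y *ᵥ v = star (fderiv ℂ (c β ∘ ci α) y v) ⬝ᵥ FS (c β (ci α y)) *ᵥ
      fderiv ℂ (c β ∘ ci α) y v := by
  have h1 : s α y β ≠ 0 := (memU (W_s α y)).1 h
  have e : c β ∘ ci α =ᶠ[𝓝 y] fun w => rat β (s α w) := by
    filter_upwards [(ci_cont α).continuousAt.eventually ((U_open β).mem_nhds h)] with w hw
      using c_mk _ hw
  have hd : DifferentiableAt ℂ (fun w => rat β (s α w)) y := differentiableAt_pi.2 fun j => by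
    simp only [rat, div_eq_mul_inv]
    exact ((s1 α _).differentiable (by simp) y).mul (((s1 α _).differentiable (by simp) y).inv h1)
  have l0 : HasDerivAt (fun t : ℂ => y + t • v) v 0 := by
    simpa using ((hasDerivAt_id (0:ℂ)).smul_const v).const_add y
  have d1 : HasDerivAt (fun t : ℂ => rat β (s α (y + t • v))) (fderiv ℂ (c β ∘ ci α) y v) 0 := by
    rw [e.fderiv_eq]
    exact HasFDerivAt.comp_hasDerivAt (l := fun w => rat β (s α w)) 0
      (by simpa using hd.hasFDerivAt) l0
  have l1 : ∀ i, HasDerivAt (fun t : ℂ => s α y i + t * ds α v i) (ds α v i) 0 := fun i => by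
    simpa using ((hasDerivAt_id (0:ℂ)).mul_const (ds α v i)).const_add (s α y i)
  have d2 : ds β (fderiv ℂ (c β ∘ ci α) y v) =
      (s α y β)⁻¹ • ds α v + (-ds α v β / s α y β ^ 2) • s α y := by
    funext i
    rcases Fin.eq_self_or_eq_succAbove β i with rfl | ⟨j, rfl⟩
    · simp only [ds_a, Pi.add_apply, Pi.smul_apply, smul_eq_mul]; field_simp; ring
    · have d3 := hasDerivAt_pi.1 d1 j
      simp only [rat, s_add, Pi.add_apply, Pi.smul_apply, smul_eq_mul] at d3
      rw [ds_1, d3.unique ((l1 _).fun_div (l1 β) (by simpa using h1))]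
      simp only [Pi.add_apply, Pi.smul_apply, smul_eq_mul, zero_mul, add_zero]
      field_simp; ring
  rw [FS_form α, FS_form β, d2, show c β (ci α y) = rat β (s α y) from c_mk _ h, s_rat β h1,
    Q_inv _ _ (inv_ne_zero h1)]

noncomputable def bump (i : Fin (n + 1)) (x : X n) : ℝ := expNegInvGlue ((x.1 i i).re - 1 / 2)

lemma ent_ci (α i) (y : E n) : ((ci α y).1 i i).re = Complex.normSq (s α y i) / (1 + n2 y) := by
  have : (ci α y).1 i i = (Complex.normSq (s α y i) / (1 + n2 y) : ℝ) := by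
    rw [← n2_s α]
    simp [ci, mk, Φ, nn, n2, Complex.mul_conj]
  rw [this, Complex.ofReal_re]

lemma bump_smooth (α i) : ContDiff ℝ ∞ fun y : E n => bump i (ci α y) := by
  simp only [bump, ent_ci, Complex.normSq_apply]
  have h : ContDiff ℝ ∞ fun e : E n => s α e i := ((s1 α i).restrict_scalars ℝ).of_le le_top
  refine expNegInvGlue.contDiff.comp (ContDiff.sub (ContDiff.div ?_ (contDiff_const.add n2_smooth)
    fun y => by linarith [n2_nonneg y]) contDiff_const)
  exact ((Complex.reCLM.contDiff.comp h).mul (Complex.reCLM.contDiff.comp h)).add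
    ((Complex.imCLM.contDiff.comp h).mul (Complex.imCLM.contDiff.comp h))

end Pool.Agent.H.MP_629fd3_an
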